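import Mathlib

set_option autoImplicit false

open Set Filter Topology

namespace Pool.Agent.H65R4

/-- Kuratowski–Ulam, easy direction: almost all vertical sections of a meagre set are meagre. -/
theorem ku_meagre {X Y : Type} [TopologicalSpace X] [TopologicalSpace Y]
    [SecondCountableTopology Y] {M : Set (X × Y)} (hM : IsMeagre M) :
    ∀ᶠ x in residual X, IsMeagre {y : Y | (x, y) ∈ M} := by
  have hM' := hM
  rw [isMeagre_iff_countable_union_isNowhereDense] at hM'
  obtain ⟨S, hS, hc, hsub⟩ := hM'
  have key : ∀ t ∈ S, ∀ᶠ x in residual X, IsMeagre {y : Y | (x, y) ∈ t} := by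
    intro t ht
    have hnd := hS t ht
    -- complement of the closure is open dense
    set O : Set (X × Y) := (closure t)ᶜ with hO
    have hOo : IsOpen O := isClosed_closure.isOpen_compl
    have hOd : Dense O := by
      rw [← interior_eq_empty_iff_dense_compl]
      exact hnd
    have h1 : ∀ V ∈ TopologicalSpace.countableBasis Y,
        ∀ᶠ x in residual X, V.Nonempty → ∃ y ∈ V, (x, y) ∈ O := by
      intro V hV
      by_cases hne : V.Nonempty
      · have hVo : IsOpen V := TopologicalSpace.isOpen_of_mem_countableBasis hV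
        set W : Set X := Prod.fst '' (O ∩ (univ ×ˢ V)) with hW
        have hWo : IsOpen W := isOpenMap_fst _ (hOo.inter (isOpen_univ.prod hVo))
        have hWd : Dense W := by
          intro x
          rw [mem_closure_iff]
          intro U hU hxU
          obtain ⟨y, hy⟩ := hne
          obtain ⟨p, hp1, hp2⟩ := hOd.inter_open_nonempty (U ×ˢ V) (hU.prod hVo) ⟨(x, y), hxU, hy⟩
          exact ⟨p.1, hp1.1, ⟨p, ⟨hp2, mem_univ _, hp1.2⟩, rfl⟩⟩
        filter_upwards [residual_of_dense_open hWo hWd] with x hx _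
        obtain ⟨p, ⟨hp1, _, hp2⟩, rfl⟩ := hx
        exact ⟨p.2, hp2, hp1⟩
      · exact Eventually.of_forall fun x h => absurd h hne
    have h2 : ∀ᶠ x in residual X, ∀ V ∈ TopologicalSpace.countableBasis Y,
        V.Nonempty → ∃ y ∈ V, (x, y) ∈ O := by
      rw [eventually_countable_ball (TopologicalSpace.countable_countableBasis Y)]
      exact h1
    filter_upwards [h2] with x hx
    refine IsNowhereDense.isMeagre ?_
    have hsec : {y : Y | (x, y) ∈ t} ⊆ {y : Y | (x, y) ∈ closure t} := fun y hy => subset_closure hy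
    have hcl : IsClosed {y : Y | (x, y) ∈ closure t} :=
      isClosed_closure.preimage (by fun_prop : Continuous fun y : Y => (x, y))
    have hd : Dense {y : Y | (x, y) ∈ O} := by
      rw [(TopologicalSpace.isBasis_countableBasis Y).dense_iff]
      intro V hV hne
      obtain ⟨y, hy1, hy2⟩ := hx V hV hne
      exact ⟨y, hy1, hy2⟩
    have h3 : interior {y : Y | (x, y) ∈ closure t} = ∅ := by
      rw [interior_eq_empty_iff_dense_compl]
      exact hd
    have h4 : closure {y : Y | (x, y) ∈ t} ⊆ {y : Y | (x, y) ∈ closure t} :=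
      closure_minimal hsec hcl
    exact subset_eq_empty (interior_mono h4) h3
  have h5 : ∀ᶠ x in residual X, ∀ t ∈ S, IsMeagre {y : Y | (x, y) ∈ t} := by
    rw [eventually_countable_ball hc]
    exact key
  filter_upwards [h5] with x hx
  have : {y : Y | (x, y) ∈ M} ⊆ ⋃ t ∈ S, {y : Y | (x, y) ∈ t} := by
    intro y hy
    obtain ⟨t, ht, hty⟩ := hsub hy
    simp only [mem_iUnion]
    exact ⟨t, ht, hty⟩
  exact (isMeagre_biUnion hc hx).mono this

/-- Kuratowski–Ulam: a Borel set all of whose vertical sections are meagre has almost all horizontal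
sections meagre. -/
theorem ku_borel {X Y : Type} [TopologicalSpace X] [TopologicalSpace Y]
    [SecondCountableTopology X] [SecondCountableTopology Y] [BaireSpace X] [BaireSpace Y]
    {B : Set (X × Y)} (hB : BaireMeasurableSet B) (hs : ∀ x, IsMeagre {y : Y | (x, y) ∈ B}) :
    ∀ᶠ y in residual Y, IsMeagre {x : X | (x, y) ∈ B} := by
  obtain ⟨U, hU, hBU⟩ := hB.residualEq_isOpen
  -- the symmetric difference is meagre
  set M : Set (X × Y) := {p | ¬ (p ∈ B ↔ p ∈ U)} with hM
  have hMm : IsMeagre M := by
    rw [IsMeagre]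
    filter_upwards [hBU] with p hp
    have : (p ∈ B) = (p ∈ U) := hp
    simp [hM, this]
  have hUe : U = ∅ := by
    by_contra hne
    obtain ⟨⟨x, y⟩, hxy⟩ := nonempty_iff_ne_empty.2 hne
    obtain ⟨V, W, hV, hW, hxV, hyW, hVW⟩ := isOpen_prod_iff.1 hU x y hxy
    have h1 := ku_meagre hMm
    have h2 : ¬ IsMeagre V := not_isMeagre_of_isOpen hV ⟨x, hxV⟩
    have h3 : ∃ x' ∈ V, IsMeagre {y : Y | (x', y) ∈ M} := by
      by_contra hcon
      push Not at hcon
      refine h2 ?_
      rw [IsMeagre]
      filter_upwards [h1] with z hz hzV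
      exact hcon z hzV hz
    obtain ⟨x', hx', hm⟩ := h3
    have h4 : W ⊆ {y : Y | (x', y) ∈ M} ∪ {y : Y | (x', y) ∈ B} := by
      intro w hw
      by_cases hb : (x', w) ∈ B
      · exact Or.inr hb
      · left
        have : (x', w) ∈ U := hVW ⟨hx', hw⟩
        simp [hM, hb, this]
    exact not_isMeagre_of_isOpen hW ⟨y, hyW⟩ ((hm.union (hs x')).mono h4)
  have hBm : IsMeagre B := by
    refine hMm.mono ?_
    intro p hp
    simp [hM, hUe, hp]
  -- swap
  have hBs : IsMeagre (Prod.swap ⁻¹' B : Set (Y × X)) :=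
    hBm.preimage_of_isOpenMap continuous_swap (Homeomorph.prodComm Y X).isOpenMap
  exact ku_meagre hBs

end Pool.Agent.H65R4
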