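import Mathlib

set_option autoImplicit false

open Set Filter Topology MeasureTheory

namespace Pool.Agent.H65R4

theorem hull_ae {X : Type} [MeasurableSpace X] (μ : Measure X) [IsFiniteMeasure μ] (T : Set X)
    {P : Set X} (hP : MeasurableSet P) (h : T ⊆ P) : μ (toMeasurable μ T \ P) = 0 := by
  rw [diff_eq, Measure.measure_toMeasurable_inter hP.compl (measure_ne_top μ T)]
  have : T ∩ Pᶜ = ∅ := by
    rw [← diff_eq, diff_eq_empty]
    exact h
  rw [this, measure_empty]

/-- A set on which a measurable relation behaves like a well-order with null initial segments is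
null. -/
theorem rank_null {X : Type} [MeasurableSpace X] (μ : Measure X) [IsFiniteMeasure μ] (T : Set X)
    {G : Set (X × X)} (hG : MeasurableSet G) (h1 : ∀ z' ∈ T, μ {z ∈ T | (z, z') ∈ G} = 0)
    (h2 : ∀ z ∈ T, μ {z' ∈ T | (z, z') ∉ G} = 0) : μ T = 0 := by
  set H := toMeasurable μ T with hH
  have hHm : MeasurableSet H := measurableSet_toMeasurable μ T
  have hin : ∀ s : Set X, MeasurableSet s → μ (H ∩ s) = μ (T ∩ s) := fun s hs =>
    Measure.measure_toMeasurable_inter hs (measure_ne_top μ T)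
  have hA : (μ.prod μ) ((H ×ˢ H) ∩ G) = 0 := by
    have hs : MeasurableSet ((H ×ˢ H) ∩ G) := (hHm.prod hHm).inter hG
    rw [Measure.prod_apply_symm hs]
    refine lintegral_eq_zero_of_ae_eq_zero ?_
    set Q : Set X := {z' | μ ((fun z => (z, z')) ⁻¹' ((H ×ˢ H) ∩ G)) = 0} with hQ
    have hQm : MeasurableSet Q := (measurable_measure_prodMk_right hs) (measurableSet_singleton 0)
    have hTQ : T ⊆ Q := by
      intro z' hz'
      show μ ((fun z => (z, z')) ⁻¹' ((H ×ˢ H) ∩ G)) = 0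
      have h3 : (fun z => (z, z')) ⁻¹' ((H ×ˢ H) ∩ G) ⊆ H ∩ {z | (z, z') ∈ G} := by
        rintro z ⟨⟨ha, hb⟩, hc⟩
        exact ⟨ha, hc⟩
      refine measure_mono_null h3 ?_
      have hGz : MeasurableSet {z | (z, z') ∈ G} :=
        (measurable_id.prodMk measurable_const : Measurable fun z => (z, z')) hG
      rw [hin _ hGz]
      exact h1 z' hz'
    have hn : μ (H \ Q) = 0 := hull_ae μ T hQm hTQ
    rw [Filter.EventuallyEq, ae_iff]
    refine measure_mono_null ?_ hn
    intro z' hz'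
    by_contra hcon
    refine hz' ?_
    by_cases hzH : z' ∈ H
    · by_contra h4
      exact hcon ⟨hzH, h4⟩
    · have : (fun z => (z, z')) ⁻¹' ((H ×ˢ H) ∩ G) = ∅ := by
        ext z
        simp [hzH]
      simp only [this, measure_empty, Pi.zero_apply]
  have hB : (μ.prod μ) ((H ×ˢ H) ∩ Gᶜ) = 0 := by
    have hs : MeasurableSet ((H ×ˢ H) ∩ Gᶜ) := (hHm.prod hHm).inter hG.compl
    rw [Measure.prod_apply hs]
    refine lintegral_eq_zero_of_ae_eq_zero ?_
    set Q : Set X := {z | μ (Prod.mk z ⁻¹' ((H ×ˢ H) ∩ Gᶜ)) = 0} with hQ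
    have hQm : MeasurableSet Q := (measurable_measure_prodMk_left hs) (measurableSet_singleton 0)
    have hTQ : T ⊆ Q := by
      intro z hz
      show μ (Prod.mk z ⁻¹' ((H ×ˢ H) ∩ Gᶜ)) = 0
      have h3 : Prod.mk z ⁻¹' ((H ×ˢ H) ∩ Gᶜ) ⊆ H ∩ {z' | (z, z') ∈ Gᶜ} := by
        rintro z' ⟨⟨ha, hb⟩, hc⟩
        exact ⟨hb, hc⟩
      refine measure_mono_null h3 ?_
      have hGz : MeasurableSet {z' | (z, z') ∈ Gᶜ} :=
        (measurable_const.prodMk measurable_id : Measurable fun z' => (z, z')) hG.compl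
      rw [hin _ hGz]
      exact h2 z hz
    have hn : μ (H \ Q) = 0 := hull_ae μ T hQm hTQ
    rw [Filter.EventuallyEq, ae_iff]
    refine measure_mono_null ?_ hn
    intro z hz
    by_contra hcon
    refine hz ?_
    by_cases hzH : z ∈ H
    · by_contra h4
      exact hcon ⟨hzH, h4⟩
    · have : Prod.mk z ⁻¹' ((H ×ˢ H) ∩ Gᶜ) = ∅ := by
        ext z'
        simp [hzH]
      simp only [this, measure_empty, Pi.zero_apply]
  have hC : (μ.prod μ) (H ×ˢ H) = 0 := by
    have : H ×ˢ H ⊆ ((H ×ˢ H) ∩ G) ∪ ((H ×ˢ H) ∩ Gᶜ) := by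
      intro p hp
      by_cases hpG : p ∈ G
      · exact Or.inl ⟨hp, hpG⟩
      · exact Or.inr ⟨hp, hpG⟩
    exact measure_mono_null this (measure_union_null hA hB)
  rw [Measure.prod_prod, mul_self_eq_zero] at hC
  rw [← measure_toMeasurable T]
  exact hC

/-- a Borel set with null sections, universal for null sets -/
theorem exists_universal_null (ν : Measure (ℕ → Bool)) [IsFiniteMeasure ν] :
    ∃ N : Set ((ℕ → Bool) × (ℕ → Bool)), MeasurableSet N ∧ (∀ c, ν {y | (c, y) ∈ N} = 0) ∧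
      ∀ S : Set (ℕ → Bool), ν S = 0 → ∃ c, ∀ y ∈ S, (c, y) ∈ N := by
  classical
  have hbne : (TopologicalSpace.countableBasis (ℕ → Bool)).Nonempty := by
    obtain ⟨v, hv, _⟩ := (TopologicalSpace.isBasis_countableBasis (ℕ → Bool)).exists_subset_of_mem_open
      (mem_univ (fun _ => true)) isOpen_univ
    exact ⟨v, hv⟩
  obtain ⟨V, hV⟩ := (TopologicalSpace.countable_countableBasis (ℕ → Bool)).exists_eq_range hbne
  have hVb : TopologicalSpace.IsTopologicalBasis (range V) :=
    hV ▸ TopologicalSpace.isBasis_countableBasis (ℕ → Bool)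
  have hVo : ∀ n, IsOpen (V n) := fun n => hVb.isOpen ⟨n, rfl⟩
  let O : ℕ → Set ((ℕ → Bool) × (ℕ → Bool)) := fun k =>
    {p | ∃ n, p.1 (Nat.pair k n) = true ∧ p.2 ∈ V n}
  have hOm : ∀ k, MeasurableSet (O k) := by
    intro k
    have h1 : O k = ⋃ n, {p | p.1 (Nat.pair k n) = true} ∩ {p | p.2 ∈ V n} := by
      ext p; simp [O]
    rw [h1]
    refine MeasurableSet.iUnion fun n => MeasurableSet.inter ?_ ?_
    · have h2 : Measurable fun p : (ℕ → Bool) × (ℕ → Bool) => p.1 (Nat.pair k n) :=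
        (measurable_pi_apply _).comp measurable_fst
      exact h2 (measurableSet_singleton true)
    · exact (hVo n).measurableSet.preimage measurable_snd
  let N : Set ((ℕ → Bool) × (ℕ → Bool)) :=
    ⋂ k, ({p | ν (Prod.mk p.1 ⁻¹' O k) ≤ (2⁻¹ : ENNReal) ^ k} ∩ O k)
  refine ⟨N, ?_, ?_, ?_⟩
  · refine MeasurableSet.iInter fun k => MeasurableSet.inter ?_ (hOm k)
    have h1 : Measurable fun c : ℕ → Bool => ν (Prod.mk c ⁻¹' O k) := measurable_measure_prodMk_left (hOm k)
    exact measurableSet_le (h1.comp measurable_fst) measurable_const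
  · intro c
    by_contra hne
    have h1 : ∀ k, ν {y | (c, y) ∈ N} ≤ (2⁻¹ : ENNReal) ^ k := by
      intro k
      by_cases h : ν (Prod.mk c ⁻¹' O k) ≤ (2⁻¹ : ENNReal) ^ k
      · refine (measure_mono ?_).trans h
        intro y hy
        exact (mem_iInter.1 hy k).2
      · have : {y | (c, y) ∈ N} = ∅ := by
          ext y
          simp only [mem_setOf_eq, mem_empty_iff_false, iff_false]
          intro hy
          exact h (mem_iInter.1 hy k).1
        rw [this, measure_empty]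
        exact zero_le
    have h2 : Tendsto (fun k : ℕ => (2⁻¹ : ENNReal) ^ k) atTop (𝓝 0) :=
      ENNReal.tendsto_pow_atTop_nhds_zero_of_lt_one (by norm_num)
    exact hne (le_antisymm (ge_of_tendsto' h2 h1) zero_le)
  · intro S hS
    have h1 : ∀ k : ℕ, ∃ U : Set (ℕ → Bool), S ⊆ U ∧ IsOpen U ∧ ν U < (2⁻¹ : ENNReal) ^ k := by
      intro k
      obtain ⟨U, hSU, hU, hν⟩ := Set.exists_isOpen_lt_of_lt S ((2⁻¹ : ENNReal) ^ k)
        (by rw [hS]; exact ENNReal.pow_pos (by norm_num) k) (μ := ν)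
      exact ⟨U, hSU, hU, hν⟩
    choose U hSU hU hν using h1
    refine ⟨fun i => decide (V (Nat.unpair i).2 ⊆ U (Nat.unpair i).1), ?_⟩
    intro y hy
    refine mem_iInter.2 fun k => ⟨?_, ?_⟩
    · show ν (Prod.mk _ ⁻¹' O k) ≤ _
      refine le_trans (measure_mono ?_) (hν k).le
      rintro z ⟨n, hn, hz⟩
      simp only [Nat.unpair_pair, decide_eq_true_eq] at hn
      exact hn hz
    · obtain ⟨_, ⟨n, rfl⟩, hyn, hn⟩ := hVb.exists_subset_of_mem_open (hSU k hy) (hU k)
      refine ⟨n, ?_, hyn⟩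
      simpa using hn

end Pool.Agent.H65R4
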