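import Mathlib

set_option autoImplicit false

open Set Filter Topology

namespace Pool.Agent.H65R4

/-- the point of `ℝ^ℕ` coding the function `x` and the real `c` -/
noncomputable def mix (x : ℕ → ℕ) (c : ℕ → Bool) : ℕ → ℝ :=
  fun i => (((2 * x i + (c i).toNat + 1 : ℕ) : ℝ))⁻¹

/-- the points of the countable set: finite sequences followed by zeros -/
noncomputable def dsq (p : Σ n : ℕ, (Fin n → ℕ)) : ℕ → ℝ :=
  fun i => if h : i < p.1 then (((p.2 ⟨i, h⟩ + 1 : ℕ) : ℝ))⁻¹ else 0

/-- decoding of the real -/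
noncomputable def decC (w : ℕ → ℝ) : ℕ → Bool := fun i => decide (⌊(w i)⁻¹⌋₊ % 2 = 0)

/-- decoding of the function -/
noncomputable def decX (w : ℕ → ℝ) : ℕ → ℕ := fun i => (⌊(w i)⁻¹⌋₊ - 1) / 2

theorem decC_mix (x : ℕ → ℕ) (c : ℕ → Bool) : decC (mix x c) = c := by
  funext i
  unfold decC mix
  rw [inv_inv, Nat.floor_natCast]
  cases c i
  · simp only [Bool.toNat_false, decide_eq_false_iff_not]
    omega
  · simp only [Bool.toNat_true, decide_eq_true_eq]
    omega

theorem decX_mix (x : ℕ → ℕ) (c : ℕ → Bool) : decX (mix x c) = x := by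
  funext i
  unfold decX mix
  rw [inv_inv, Nat.floor_natCast]
  cases c i
  · simp only [Bool.toNat_false]
    omega
  · simp only [Bool.toNat_true]
    omega

theorem measurable_decC : Measurable decC := by
  rw [measurable_pi_iff]
  intro i
  have h1 : Measurable fun w : ℕ → ℝ => ⌊(w i)⁻¹⌋₊ :=
    Nat.measurable_floor.comp ((measurable_pi_apply i).inv)
  exact (measurable_of_countable (fun n : ℕ => decide (n % 2 = 0))).comp h1

theorem measurable_decX : Measurable decX := by
  rw [measurable_pi_iff]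
  intro i
  have h1 : Measurable fun w : ℕ → ℝ => ⌊(w i)⁻¹⌋₊ :=
    Nat.measurable_floor.comp ((measurable_pi_apply i).inv)
  exact (measurable_of_countable (fun n : ℕ => (n - 1) / 2)).comp h1

/-- A closed set missing all the points `dsq p` is far from each of them. -/
theorem far {K : Set (ℕ → ℝ)} (hK : IsClosed K) (p : Σ n : ℕ, (Fin n → ℕ)) (hp : dsq p ∉ K) :
    ∃ m : ℕ, ∀ w : ℕ → ℝ, (∀ i, i < p.1 → w i = dsq p i) →
      (∀ i, p.1 ≤ i → 0 ≤ w i ∧ w i ≤ 1 / ((m : ℝ) + 1)) → w ∉ K := by
  by_contra hcon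
  push Not at hcon
  choose w hw1 hw2 hw3 using hcon
  refine hp (hK.mem_of_tendsto (f := w) (b := atTop) ?_ (Eventually.of_forall hw3))
  rw [tendsto_pi_nhds]
  intro i
  by_cases hi : i < p.1
  · simp only [hw1 _ i hi]
    exact tendsto_const_nhds
  · have h0 : dsq p i = 0 := by simp [dsq, hi]
    rw [h0]
    exact squeeze_zero (fun m => (hw2 m i (not_lt.1 hi)).1) (fun m => (hw2 m i (not_lt.1 hi)).2)
      tendsto_one_div_add_atTop_nhds_zero_nat

/-- The functions coded in a closed set which misses all points `dsq p` are pointwise bounded. -/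
theorem mix_bound {K : Set (ℕ → ℝ)} (hK : IsClosed K) (hd : ∀ p, dsq p ∉ K) :
    ∃ g : ℕ → ℕ, ∀ x : ℕ → ℕ, Monotone x → ∀ c, mix x c ∈ K → ∀ n, x n ≤ g n := by
  have key : ∀ n : ℕ, ∃ b : ℕ, ∀ x : ℕ → ℕ, Monotone x → ∀ c, mix x c ∈ K → x n ≤ b := by
    intro n
    induction n using Nat.strong_induction_on with
    | _ n ih =>
      choose! b hb using ih
      -- common bound for the earlier values
      set G : ℕ := ∑ i ∈ Finset.range n, b i with hG
      have hG' : ∀ x : ℕ → ℕ, Monotone x → ∀ c, mix x c ∈ K → ∀ i < n, x i ≤ G := by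
        intro x hx c hc i hi
        refine (hb i hi x hx c hc).trans ?_
        exact Finset.single_le_sum (f := b) (fun _ _ => Nat.zero_le _) (Finset.mem_range.2 hi)
      choose m hm using fun p => far hK p (hd p)
      refine ⟨∑ τ : Fin n → Fin (2 * G + 2), m ⟨n, fun i => (τ i : ℕ)⟩, ?_⟩
      intro x hx c hc
      by_contra hlt
      push Not at hlt
      have hτ : ∀ i : Fin n, 2 * x i + (c i).toNat < 2 * G + 2 := by
        intro i
        have h1 := hG' x hx c hc i i.2
        have h2 : (c i).toNat ≤ 1 := Bool.toNat_le _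
        omega
      let τ : Fin n → Fin (2 * G + 2) := fun i => ⟨2 * x i + (c i).toNat, hτ i⟩
      have hle : m ⟨n, fun i => (τ i : ℕ)⟩ ≤
          ∑ τ : Fin n → Fin (2 * G + 2), m ⟨n, fun i => (τ i : ℕ)⟩ :=
        Finset.single_le_sum (f := fun τ : Fin n → Fin (2 * G + 2) => m ⟨n, fun i => (τ i : ℕ)⟩)
          (fun _ _ => Nat.zero_le _) (Finset.mem_univ τ)
      refine hm ⟨n, fun i => (τ i : ℕ)⟩ (mix x c) ?_ ?_ hc
      · intro i hi
        have hi' : i < n := hi
        simp [dsq, mix, hi', τ]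
      · intro i hi
        have hi' : n ≤ i := hi
        constructor
        · unfold mix; positivity
        · have h3 : m ⟨n, fun i => (τ i : ℕ)⟩ ≤ x i :=
            (hle.trans hlt.le).trans (hx hi')
          unfold mix
          rw [one_div]
          apply inv_anti₀
          · positivity
          · have h4 : ((m ⟨n, fun i => (τ i : ℕ)⟩ : ℕ) : ℝ) ≤ (x i : ℝ) := by exact_mod_cast h3
            push_cast
            have h5 : (0 : ℝ) ≤ ((c i).toNat : ℝ) := Nat.cast_nonneg _
            have h6 : (0 : ℝ) ≤ (x i : ℝ) := Nat.cast_nonneg _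
            linarith
  choose g hg using key
  exact ⟨g, fun x hx c hc n => hg n x hx c hc⟩

end Pool.Agent.H65R4
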