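import Mathlib

set_option autoImplicit false

open Set Filter Topology

namespace Pool.Agent.H65R4

/-- the point of the Cantor space `ℕ → ℕ → Bool` coding the function `x` and the real `c`:
row `i` is the unary code of `2 x(i) + c(i)` -/
def mixB (x : ℕ → ℕ) (c : ℕ → Bool) : ℕ → ℕ → Bool :=
  fun i m => decide (m < 2 * x i + (c i).toNat)

/-- the points of the countable set: finitely many finite rows followed by infinite rows -/
def dsqB (p : Σ n : ℕ, (Fin n → ℕ)) : ℕ → ℕ → Bool :=
  fun i m => if h : i < p.1 then decide (m < p.2 ⟨i, h⟩) else true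

open Classical in
/-- the value coded by a row -/
noncomputable def rowv (r : ℕ → Bool) : ℕ := if h : ∃ m, r m = false then Nat.find h else 0

/-- decoding of the real -/
noncomputable def decBC (w : ℕ → ℕ → Bool) : ℕ → Bool := fun i => decide (rowv (w i) % 2 = 1)

/-- decoding of the function -/
noncomputable def decBX (w : ℕ → ℕ → Bool) : ℕ → ℕ := fun i => rowv (w i) / 2

theorem rowv_unary (N : ℕ) : rowv (fun m => decide (m < N)) = N := by
  have h : ∃ m, (fun m => decide (m < N)) m = false := ⟨N, by simp⟩
  rw [rowv, dif_pos h]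
  rw [Nat.find_eq_iff]
  constructor
  · simp
  · intro n hn; simp [hn]

theorem decBC_mixB (x : ℕ → ℕ) (c : ℕ → Bool) : decBC (mixB x c) = c := by
  funext i
  show decide (rowv (fun m => decide (m < 2 * x i + (c i).toNat)) % 2 = 1) = c i
  rw [rowv_unary]
  cases c i
  · simp
  · simp only [Bool.toNat_true, decide_eq_true_eq]
    omega

theorem decBX_mixB (x : ℕ → ℕ) (c : ℕ → Bool) : decBX (mixB x c) = x := by
  funext i
  show rowv (fun m => decide (m < 2 * x i + (c i).toNat)) / 2 = x i
  rw [rowv_unary]
  cases c i
  · simp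
  · simp only [Bool.toNat_true]
    omega

theorem measurable_rowv : Measurable rowv := by
  refine measurable_to_countable' fun n => ?_
  have hb : ∀ m : ℕ, ∀ b : Bool, MeasurableSet {r : ℕ → Bool | r m = b} := by
    intro m b
    have h0 : Measurable (fun r : ℕ → Bool => r m) := measurable_pi_apply m
    exact h0 (measurableSet_singleton b)
  have h1 : rowv ⁻¹' {n} = ({r | r n = false} ∩ ⋂ m ∈ Finset.range n, {r : ℕ → Bool | r m = true}) ∪
      (if n = 0 then ⋂ m, {r : ℕ → Bool | r m = true} else ∅) := by
    classical
    ext r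
    simp only [mem_preimage, mem_singleton_iff, mem_union, mem_inter_iff, mem_setOf_eq, mem_iInter,
      Finset.mem_range]
    constructor
    · intro hr
      by_cases h : ∃ m, r m = false
      · left
        rw [rowv, dif_pos h] at hr
        have h2 := (Nat.find_eq_iff h).1 hr
        exact ⟨h2.1, fun m hm => by simpa using h2.2 m hm⟩
      · right
        rw [rowv, dif_neg h] at hr
        subst hr
        push Not at h
        simpa using h
    · rintro (⟨h1, h2⟩ | h)
      · have h : ∃ m, r m = false := ⟨n, h1⟩
        rw [rowv, dif_pos h, Nat.find_eq_iff]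
        exact ⟨h1, fun m hm => by simp [h2 m hm]⟩
      · by_cases hn : n = 0
        · subst hn
          simp only [if_true, mem_iInter, mem_setOf_eq] at h
          have h' : ¬ ∃ m, r m = false := by
            rintro ⟨m, hm⟩
            rw [h m] at hm
            exact Bool.noConfusion hm
          rw [rowv, dif_neg h']
        · simp [hn] at h
  rw [h1]
  refine MeasurableSet.union ((hb n false).inter (Finset.measurableSet_biInter _ fun m _ => hb m true)) ?_
  split_ifs
  · exact MeasurableSet.iInter fun m => hb m true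
  · exact MeasurableSet.empty

theorem measurable_decBC : Measurable decBC := by
  rw [measurable_pi_iff]
  intro i
  exact (measurable_of_countable (fun n : ℕ => decide (n % 2 = 1))).comp
    (measurable_rowv.comp (measurable_pi_apply i))

theorem measurable_decBX : Measurable decBX := by
  rw [measurable_pi_iff]
  intro i
  exact (measurable_of_countable (fun n : ℕ => n / 2)).comp
    (measurable_rowv.comp (measurable_pi_apply i))

/-- A closed set missing all the points `dsqB p` is far from each of them. -/
theorem farB {K : Set (ℕ → ℕ → Bool)} (hK : IsClosed K) (p : Σ n : ℕ, (Fin n → ℕ))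
    (hp : dsqB p ∉ K) :
    ∃ m : ℕ, ∀ w : ℕ → ℕ → Bool, (∀ i, i < p.1 → w i = dsqB p i) →
      (∀ i, p.1 ≤ i → ∀ l < m, w i l = true) → w ∉ K := by
  by_contra hcon
  push Not at hcon
  choose w hw1 hw2 hw3 using hcon
  refine hp (hK.mem_of_tendsto (f := w) (b := atTop) ?_ (Eventually.of_forall hw3))
  rw [tendsto_pi_nhds]
  intro i
  rw [tendsto_pi_nhds]
  intro l
  by_cases hi : i < p.1
  · simp only [hw1 _ i hi]
    exact tendsto_const_nhds
  · have h0 : dsqB p i l = true := by simp [dsqB, hi]
    rw [h0]
    refine tendsto_const_nhds.congr' ?_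
    filter_upwards [eventually_gt_atTop l] with m hm
    exact (hw2 m i (not_lt.1 hi) l hm).symm

/-- The functions coded in a closed set which misses all points `dsqB p` are pointwise bounded. -/
theorem mixB_bound {K : Set (ℕ → ℕ → Bool)} (hK : IsClosed K) (hd : ∀ p, dsqB p ∉ K) :
    ∃ g : ℕ → ℕ, ∀ x : ℕ → ℕ, Monotone x → ∀ c, mixB x c ∈ K → ∀ n, x n ≤ g n := by
  have key : ∀ n : ℕ, ∃ b : ℕ, ∀ x : ℕ → ℕ, Monotone x → ∀ c, mixB x c ∈ K → x n ≤ b := by
    intro n
    induction n using Nat.strong_induction_on with
    | _ n ih =>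
      choose! b hb using ih
      -- common bound for the earlier values
      set G : ℕ := ∑ i ∈ Finset.range n, b i with hG
      have hG' : ∀ x : ℕ → ℕ, Monotone x → ∀ c, mixB x c ∈ K → ∀ i < n, x i ≤ G := by
        intro x hx c hc i hi
        refine (hb i hi x hx c hc).trans ?_
        exact Finset.single_le_sum (f := b) (fun _ _ => Nat.zero_le _) (Finset.mem_range.2 hi)
      choose m hm using fun p => farB hK p (hd p)
      refine ⟨∑ τ : Fin n → Fin (2 * G + 2), m ⟨n, fun i => (τ i : ℕ)⟩, ?_⟩
      intro x hx c hc
      by_contra hlt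
      push Not at hlt
      have hτ : ∀ i : Fin n, 2 * x i + (c i).toNat < 2 * G + 2 := by
        intro i
        have h1 := hG' x hx c hc i i.2
        have h2 : (c i).toNat ≤ 1 := Bool.toNat_le _
        omega
      let τ : Fin n → Fin (2 * G + 2) := fun i => ⟨2 * x i + (c i).toNat, hτ i⟩
      have hle : m ⟨n, fun i => (τ i : ℕ)⟩ ≤
          ∑ τ : Fin n → Fin (2 * G + 2), m ⟨n, fun i => (τ i : ℕ)⟩ :=
        Finset.single_le_sum (f := fun τ : Fin n → Fin (2 * G + 2) => m ⟨n, fun i => (τ i : ℕ)⟩)
          (fun _ _ => Nat.zero_le _) (Finset.mem_univ τ)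
      refine hm ⟨n, fun i => (τ i : ℕ)⟩ (mixB x c) ?_ ?_ hc
      · intro i hi
        have hi' : i < n := hi
        funext l
        simp [dsqB, mixB, hi', τ]
      · intro i hi l hl
        have hi' : n ≤ i := hi
        have h3 : m ⟨n, fun i => (τ i : ℕ)⟩ ≤ x i :=
          (hle.trans hlt.le).trans (hx hi')
        simp only [mixB, decide_eq_true_eq]
        omega
  choose g hg using key
  exact ⟨g, fun x hx c hc n => hg n x hx c hc⟩

end Pool.Agent.H65R4
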